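import Pool.Agent.W774.TL.Stm

/-! Project TL (owner helper774), part DOM1. -/

set_option autoImplicit false

namespace Pool.Agent.W509.TL.DOM1

open Pool.Agent.W774.TL

theorem S_ge (u : ℝ) : -(16 / 100) ≤ S u := by
  unfold S
  have h1 := Real.neg_one_le_sin (2 * Real.pi * u)
  have h2 : (3.14 : ℝ) < Real.pi := Real.pi_gt_d2
  have h3 : 0 < 2 * Real.pi := by linarith
  rw [le_div_iff₀ h3]
  nlinarith

theorem S_add_int (a : ℝ) (N : ℤ) : S (a + N) = S a := by
  unfold S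
  have : 2 * Real.pi * (a + N) = 2 * Real.pi * a + N * (2 * Real.pi) := by ring
  rw [this, Real.sin_add_int_mul_two_pi]

theorem S_le (a : ℝ) (ha : |a| ≤ 1 / 100) : S a ≤ 1 / 100 := by
  unfold S
  have hpi := Real.pi_pos
  have h3 : 0 < 2 * Real.pi := by linarith
  rw [div_le_iff₀ h3]
  rcases le_or_gt 0 a with h | h
  · have h1 : Real.sin (2 * Real.pi * a) ≤ 2 * Real.pi * a := Real.sin_le (by positivity)
    have h2 : a ≤ 1 / 100 := (le_abs_self a).trans ha
    nlinarith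
  · have h2 : -(1 / 100) ≤ a := (abs_le.1 ha).1
    have h4 : Real.sin (2 * Real.pi * a) ≤ 0 := by
      have h5 : 0 ≤ Real.sin (2 * Real.pi * (-a)) := by
        refine Real.sin_nonneg_of_nonneg_of_le_pi (by nlinarith) ?_
        have : -a ≤ 1 / 2 := by linarith
        nlinarith
      have h6 : 2 * Real.pi * (-a) = -(2 * Real.pi * a) := by ring
      rw [h6, Real.sin_neg] at h5
      linarith
    nlinarith

theorem dom1_thm : P_DOM1 := by
  intro k N τ a p ⟨h1, h2, h3, h4⟩ j hj1 hj2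
  have hA : (0 : ℝ) < 3 ^ k := by positivity
  have hB : (0 : ℝ) < (3 : ℝ) ^ j.natAbs := by positivity
  obtain ⟨h5, h6⟩ := abs_le.1 h4
  have hVk : V (k : ℤ) (a + k * (τ + (k + 1)) + N) (τ + (k + 1)) ≤ 76 / 100 * 3 ^ k := by
    unfold V
    have e : a + (k : ℝ) * (τ + (k + 1)) + N - ((k : ℤ) : ℝ) * (τ + (k + 1)) = a + N := by
      push_cast
      ring
    rw [e, S_add_int, Int.natAbs_natCast]
    have := S_le a h3
    nlinarith
  have hVj : 59 / 100 * (3 : ℝ) ^ j.natAbs ≤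
      V j (a + k * (τ + (k + 1)) + N) (τ + (k + 1)) := by
    unfold V
    have := S_ge (a + k * (τ + (k + 1)) + N - j * (τ + (k + 1)))
    nlinarith
  have hp1 : p ≤ 153 / 100 * 3 ^ k := by nlinarith
  have hp2 : 98 / 100 * (3 : ℝ) ^ k ≤ p := by nlinarith
  rcases lt_or_gt_of_ne hj1 with hlt | hgt
  · -- j < k
    have hm : (j : ℝ) + 1 ≤ (k : ℝ) := by exact_mod_cast hlt
    have hpp : 0 ≤ p := by nlinarith
    nlinarith
  · obtain ⟨i, hi⟩ : ∃ i : ℕ, j = k + (i : ℤ) := ⟨(j - k).toNat, by omega⟩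
    have hi2 : 2 ≤ i := by omega
    have hn : j.natAbs = k + i := by omega
    have hB2 : (3 : ℝ) ^ j.natAbs = 3 ^ k * 3 ^ i := by rw [hn, pow_add]
    have hw : 18 * (i : ℝ) - 27 ≤ (3 : ℝ) ^ i := by
      obtain ⟨m, rfl⟩ := Nat.exists_eq_add_of_le hi2
      have hb := one_add_mul_le_pow (a := (2 : ℝ)) (by norm_num) m
      have e3 : (3 : ℝ) ^ (2 + m) = 9 * (1 + 2) ^ m := by rw [pow_add]; norm_num
      rw [e3]
      push_cast
      nlinarith
    have hjr : (j : ℝ) = k + i := by rw [hi]; push_cast; ring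
    have hi0 : (2 : ℝ) ≤ i := by exact_mod_cast hi2
    rw [hB2] at hVj ⊢
    rw [hjr]
    have q1 : (i : ℝ) * p ≤ i * (153 / 100 * 3 ^ k) := by nlinarith
    have q2 : 0 ≤ (3 : ℝ) ^ k * (57 / 100 * 3 ^ i - 78 / 100 - 153 / 100 * i) := by
      apply mul_nonneg hA.le
      nlinarith
    nlinarith

end Pool.Agent.W509.TL.DOM1
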